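import Pool.Agent.Q221.Lift.Moment
import Mathlib.Combinatorics.Digraph.Basic
import Mathlib.Analysis.SpecialFunctions.Pow.Real

/-!
# Random lifts of the complete digraph on three vertices are not Hamiltonian w.h.p.

The expected number of Hamilton cycles of `L_n(K_3)` is exactly `5/6 + 1/n + 1/(6 n^2)`; hence the
probability of being Hamiltonian does not tend to `1`.
-/

set_option autoImplicit false

namespace Pool.Agent.Results.MP_ff6929_pr.NotHamiltonian

open Filter Topology

/-- The complete digraph on `h` vertices: all arcs `(x, y)` with `x ≠ y`. -/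
def completeDigraph (h : ℕ) : Digraph (Fin h) := ⟨fun x y => x ≠ y⟩

/-- The arcs of a digraph. -/
abbrev Arcs {W : Type} (D : Digraph W) : Type := {e : W × W // D.Adj e.1 e.2}

/-- The `n`-lift of `D` given by one bijection `M e` of `Fin n` for every arc `e` of `D`.
The fibre `A_x` is `{x} × Fin n`; the perfect matching between `A_x` and `A_y` belonging to the arc
`e = (x, y)` joins `(x, i)` to `(y, M e i)`, oriented from `A_x` to `A_y`. -/
def lift {W : Type} (D : Digraph W) (n : ℕ) (M : Arcs D → Equiv.Perm (Fin n)) :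
    Digraph (W × Fin n) :=
  ⟨fun u v => ∃ h : D.Adj u.1 v.1, M ⟨(u.1, v.1), h⟩ u.2 = v.2⟩

/-- A digraph is Hamiltonian if some permutation `τ` of its vertices is one single cycle through
all vertices and `v → τ v` is an arc for every vertex `v`. -/
def IsHamiltonian {V : Type} (D : Digraph V) : Prop :=
  ∃ τ : Equiv.Perm V, τ.IsCycleOn Set.univ ∧ ∀ v, D.Adj v (τ v)

/-- The probability that the random `n`-lift of the complete digraph on three vertices (uniform
independent perfect matchings) is Hamiltonian. -/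
noncomputable def prHamiltonian (n : ℕ) : ℝ :=
  (Nat.card {M : Arcs (completeDigraph 3) → Equiv.Perm (Fin n) //
      IsHamiltonian (lift (completeDigraph 3) n M)} : ℝ) /
    (Nat.card (Arcs (completeDigraph 3) → Equiv.Perm (Fin n)) : ℝ)

/-- **Disproof.** For every `n ≥ 1` the random lift `L_n(K_3)` is Hamiltonian with probability at
most `5/6 + 1/n + 1/(6 n^2)`; in particular this probability does not tend to `1`. -/
theorem result :
    (∀ n : ℕ, 1 ≤ n → prHamiltonian n ≤ 5 / 6 + 1 / (n : ℝ) + 1 / (6 * (n : ℝ) ^ 2)) ∧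
      ¬ Tendsto prHamiltonian atTop (𝓝 1) := by
  classical
  have hmain : ∀ n : ℕ, 1 ≤ n →
      prHamiltonian n ≤ 5 / 6 + 1 / (n : ℝ) + 1 / (6 * (n : ℝ) ^ 2) := by
    intro n hn
    have h1 := Pool.Agent.Q221.Lift.main_bound hn
    have h2 : Nat.card (Arcs (completeDigraph 3) → Equiv.Perm (Fin n)) =
        Fintype.card (Pool.Agent.Q221.Lift.Arc → Equiv.Perm (Fin n)) := by
      rw [← Nat.card_eq_fintype_card]
      rfl
    have h3 : Nat.card {M : Arcs (completeDigraph 3) → Equiv.Perm (Fin n) //
        IsHamiltonian (lift (completeDigraph 3) n M)} =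
        (Finset.univ.filter (fun M : Pool.Agent.Q221.Lift.Arc → Equiv.Perm (Fin n) =>
          ∃ τ : Equiv.Perm (Fin 3 × Fin n), Pool.Agent.Q221.Lift.Single τ ∧
            ∀ v, Pool.Agent.Q221.Lift.adj M v (τ v))).card := by
      rw [← Fintype.card_subtype, ← Nat.card_eq_fintype_card]
      refine Nat.card_congr (Equiv.subtypeEquivRight ?_)
      intro M
      refine exists_congr fun τ => and_congr ?_ Iff.rfl
      constructor
      · intro h x y
        exact h.2 (Set.mem_univ x) (Set.mem_univ y)
      · intro h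
        exact ⟨⟨fun x _ => Set.mem_univ _, fun x _ y _ hxy => τ.injective hxy,
          fun x _ => ⟨τ.symm x, Set.mem_univ _, τ.apply_symm_apply x⟩⟩, fun x _ y _ => h x y⟩
    unfold prHamiltonian
    rw [h2, h3]
    exact h1
  refine ⟨hmain, fun hlim => ?_⟩
  have h4 : Tendsto (fun n : ℕ => 5 / 6 + 1 / (n : ℝ) + 1 / (6 * (n : ℝ) ^ 2)) atTop
      (𝓝 (5 / 6 + 0 + 0)) := by
    refine (tendsto_const_nhds.add tendsto_one_div_atTop_nhds_zero_nat).add ?_
    have h5 : Tendsto (fun n : ℕ => 1 / 6 * ((1 / (n : ℝ)) * (1 / (n : ℝ)))) atTop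
        (𝓝 (1 / 6 * (0 * 0))) :=
      (tendsto_one_div_atTop_nhds_zero_nat.mul tendsto_one_div_atTop_nhds_zero_nat).const_mul _
    simp only [mul_zero] at h5
    refine h5.congr fun n => ?_
    rcases eq_or_ne (n : ℝ) 0 with h | h
    · simp [h]
    · field_simp
  have h6 := le_of_tendsto_of_tendsto hlim h4
    (Filter.eventually_atTop.2 ⟨1, fun n hn => hmain n hn⟩)
  norm_num at h6

end Pool.Agent.Results.MP_ff6929_pr.NotHamiltonian
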